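import Mathlib
import Pool.Agent.Y896.HS.B

/-! # Project HS: horizontal lifts of one-parameter curves (helper182) -/

set_option autoImplicit false

open Matrix
open scoped Matrix.Norms.Frobenius ContDiff

namespace Pool.Agent.Y182.HS

open Pool.Agent.W544.EG (Mat LieAlg Gs)
open Pool.Agent.Y896.HS

variable {N k : ℕ} {G H : Subgroup (unitaryGroup (Fin N) ℂ)}

theorem exp_zero_mat : NormedSpace.exp (0 : Mat N) = 1 := Pool.Agent.W544.EG.exp_zero' (𝔸 := Mat N)

theorem exp_mul_exp (t : ℝ) (Z : Mat N) :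
    NormedSpace.exp (t • Z) * NormedSpace.exp (t • (-Z)) = 1 := by
  rw [smul_neg]
  exact Pool.Agent.W544.EG.exp_mul_neg (𝔸 := Mat N) _

theorem exp_mul_exp' (t : ℝ) (Z : Mat N) :
    NormedSpace.exp (t • (-Z)) * NormedSpace.exp (t • Z) = 1 := by
  rw [smul_neg]
  exact Pool.Agent.W544.EG.exp_neg_mul (𝔸 := Mat N) _

theorem lift_data (hH : IsClosed (H : Set (unitaryGroup (Fin N) ℂ))) (g : InvMetric G H k)
    (a : EuclideanSpace ℝ (Fin k)) {Z : Mat N} (hZ : Z ∈ LieAlg H) (t : ℝ) :
    comb g (crd g (NormedSpace.exp (t • Z) * comb g a * NormedSpace.exp (t • (-Z)))) =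
        NormedSpace.exp (t • Z) * comb g a * NormedSpace.exp (t • (-Z)) ∧
      ‖crd g (NormedSpace.exp (t • Z) * comb g a * NormedSpace.exp (t • (-Z)))‖ = ‖a‖ := by
  obtain ⟨u, hu, hue⟩ := hZ t
  obtain ⟨O, hO, hOX⟩ := g.inv u hu
  have hst : star (u : Mat N) = NormedSpace.exp (t • (-Z)) := by
    calc star (u : Mat N) = star (u : Mat N) * ((u : Mat N) * NormedSpace.exp (t • (-Z))) := by
          rw [hue, exp_mul_exp, mul_one]
      _ = (star (u : Mat N) * (u : Mat N)) * NormedSpace.exp (t • (-Z)) := by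
          rw [mul_assoc]
      _ = _ := by rw [star_h, one_mul]
  have h1 := conj_comb hOX a
  rw [hst, hue] at h1
  have h2 := (crd_spec hH g).1
  rw [h1, h2]
  exact ⟨rfl, norm_orth hO a⟩

theorem joined_lift (hH : IsClosed (H : Set (unitaryGroup (Fin N) ℂ))) (hHG : H ≤ G)
    (g : InvMetric G H k) {x : Mat N} (hx : x ∈ Gs G) {X : Mat N} (hX : X ∈ LieAlg G) :
    Joined g x (x * NormedSpace.exp X) (qn g X) := by
  set a := crd g X with ha
  set Y := comb g a with hY
  set Z := X - Y with hZd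
  have hZ : Z ∈ LieAlg H := (t_B N k G H hH g).2.2.1 X hX
  have hXYZ : X = Y + Z := by rw [hZd]; abel
  have hcomm : ∀ t : ℝ, NormedSpace.exp (t • (-Z)) * Z = Z * NormedSpace.exp (t • (-Z)) := by
    intro t
    have h1 : Commute (t • (-Z)) Z := by
      have : Commute (-Z) Z := (Commute.refl Z).neg_left
      exact this.smul_left t
    exact Pool.Agent.W544.EG.exp_commute (𝔸 := Mat N) h1
  set c : ℝ → Mat N := fun t => x * NormedSpace.exp (t • X) * NormedSpace.exp (t • (-Z)) with hc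
  set W : ℝ → Mat N := fun t => NormedSpace.exp (t • Z) * Y * NormedSpace.exp (t • (-Z)) with hW
  have hWc : Continuous W := by
    have h1 : Continuous fun t : ℝ => NormedSpace.exp (t • Z) :=
      (Pool.Agent.W544.EG.exp_cont (𝔸 := Mat N)).comp (continuous_id.smul continuous_const)
    have h2 : Continuous fun t : ℝ => NormedSpace.exp (t • (-Z)) :=
      (Pool.Agent.W544.EG.exp_cont (𝔸 := Mat N)).comp (continuous_id.smul continuous_const)
    exact (h1.mul continuous_const).mul h2
  have hv : Continuous fun t : ℝ => crd g (W t) :=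
    (crd g).continuous_of_finiteDimensional.comp hWc
  have hexpG : ∀ t : ℝ, ∃ w ∈ H, ((w : unitaryGroup (Fin N) ℂ) : Mat N) =
      NormedSpace.exp (t • (-Z)) := by
    intro t
    obtain ⟨w, hw, hwe⟩ := hZ (-t)
    exact ⟨w, hw, by rw [hwe, smul_neg, neg_smul]⟩
  have hcG : ∀ t ∈ Set.Icc (0 : ℝ) 1, ∃ u ∈ G, ((u : unitaryGroup (Fin N) ℂ) : Mat N) = c t := by
    intro t _
    obtain ⟨u, hu, rfl⟩ := hx
    obtain ⟨v, hv, hve⟩ := hX t
    obtain ⟨w, hw, hwe⟩ := hexpG t
    refine ⟨u * v * w, G.mul_mem (G.mul_mem hu hv) (hHG hw), ?_⟩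
    simp only [hc]
    rw [← hve, ← hwe]
    rfl
  have hcd : ∀ t ∈ Set.Icc (0 : ℝ) 1,
      HasDerivAt c (c t * ∑ i, (crd g (W t)) i • g.X i) t := by
    intro t _
    have h1 : HasDerivAt (fun u : ℝ => NormedSpace.exp (u • X))
        (NormedSpace.exp (t • X) * X) t := Pool.Agent.W544.EG.hasDerivAt_exp_smul (𝔸 := Mat N) X t
    have h2 : HasDerivAt (fun u : ℝ => NormedSpace.exp (u • (-Z)))
        (NormedSpace.exp (t • (-Z)) * (-Z)) t :=
      Pool.Agent.W544.EG.hasDerivAt_exp_smul (𝔸 := Mat N) (-Z) t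
    have h3 := (h1.const_mul x).mul h2
    have h4 : ∑ i, (crd g (W t)) i • g.X i = W t := (lift_data hH g a hZ t).1
    rw [h4]
    refine h3.congr_deriv ?_
    simp only [hc, hW]
    have e1 : x * NormedSpace.exp (t • X) * NormedSpace.exp (t • (-Z)) *
        (NormedSpace.exp (t • Z) * Y * NormedSpace.exp (t • (-Z))) =
        x * NormedSpace.exp (t • X) * (Y * NormedSpace.exp (t • (-Z))) := by
      calc _ = x * NormedSpace.exp (t • X) * ((NormedSpace.exp (t • (-Z)) *
            NormedSpace.exp (t • Z)) * (Y * NormedSpace.exp (t • (-Z)))) := by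
            noncomm_ring
        _ = _ := by rw [exp_mul_exp', one_mul]
    rw [e1, mul_neg, hcomm]
    conv_lhs => rw [hXYZ]
    rw [show NormedSpace.exp (t • (Y + Z)) = NormedSpace.exp (t • X) by rw [← hXYZ]]
    noncomm_ring
  have hJ := Joined.curve (g := g) c (fun t => crd g (W t)) hv hcG hcd
  have hlen : ∫ t in (0 : ℝ)..1, ‖crd g (W t)‖ = ‖a‖ := by
    have : ∀ t : ℝ, ‖crd g (W t)‖ = ‖a‖ := fun t => (lift_data hH g a hZ t).2
    simp_rw [this]
    simp
  rw [hlen] at hJ
  obtain ⟨w, hw, hwe⟩ := hZ 1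
  have hF := Joined.fibre (g := g) (c 1) w hw
  have hT := hJ.trans hF
  rw [add_zero] at hT
  have e0 : c 0 = x := by
    simp only [hc, zero_smul]
    rw [exp_zero_mat, mul_one, mul_one]
  have e1 : c 1 * (w : Mat N) = x * NormedSpace.exp X := by
    rw [hwe]
    simp only [hc]
    rw [mul_assoc, exp_mul_exp', mul_one, one_smul]
  rw [e0, e1] at hT
  exact hT

theorem t_J : Pool.Agent.Y896.HS.S_J := by
  intro N k G H hGc hHG hH g x y hx hy t h
  obtain ⟨l, hl, hlt, w, hw, hwe⟩ := h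
  have key : ∀ (l : List (Mat N)), (∀ X ∈ l, X ∈ LieAlg G) → ∀ x ∈ Gs G,
      Joined g x (x * (l.map NormedSpace.exp).prod) (l.map (qn g)).sum := by
    intro l
    induction l with
    | nil =>
      intro _ x hx
      have h1 := Joined.fibre (g := g) x 1 H.one_mem
      simpa using h1
    | cons X l ih =>
      intro hl x hx
      have hX := hl X (by simp)
      have h1 := joined_lift hH hHG g hx hX
      have hxX : x * NormedSpace.exp X ∈ Gs G := by
        obtain ⟨u, hu, rfl⟩ := hx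
        obtain ⟨v, hv, hve⟩ := hX 1
        rw [one_smul] at hve
        exact ⟨u * v, G.mul_mem hu hv, by rw [← hve]; rfl⟩
      have h2 := ih (fun Y hY => hl Y (by simp [hY])) (x * NormedSpace.exp X) hxX
      simp only [List.map_cons, List.prod_cons, List.sum_cons]
      rw [← mul_assoc]
      exact h1.trans h2
  refine ⟨(l.map (qn g)).sum, hlt, List.sum_nonneg ?_, ?_⟩
  · intro z hz
    obtain ⟨X, _, rfl⟩ := List.mem_map.1 hz
    exact norm_nonneg _
  · have h1 := (key l hl x hx).trans (Joined.fibre (g := g) _ w hw)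
    rw [add_zero, mul_assoc, ← hwe, ← mul_assoc] at h1
    have h2 : x * star x = 1 := by
      obtain ⟨u, hu, rfl⟩ := hx
      exact Pool.Agent.W544.EG.unit_ms u
    rw [h2, one_mul] at h1
    exact h1

end Pool.Agent.Y182.HS
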